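import Pool.Agent.Y557.U.TupMain
import Pool.Agent.Y31.U557.WR

/-!
# The strong n-conjecture, with exponent `n - 2`, for almost all tuples on all split rational curves

Consider all tuples of pairwise coprime polynomials `P 0, ..., P (n-1)` of maximal degree `D` with
integral coefficients of absolute value at most `X ^ η`, with rational zeros only and with sum zero,
which have altogether `q` zeros on the projective line. The tuples of coprime nonzero integers
proportional to `(P 0 (t), ..., P (n-1) (t))` for some rational `t`, of all sizes, are ordered by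
their radical. One exceptional set, smaller by a power of `X` than the set of the tuples with
radical at most `X` on each single curve, serves all curves: all other tuples satisfy
`max |z i| ≤ rad ^ (n - 2)`, and even `max |z i| ≤ c rad ^ M` for every `M > D / q`
(we have `D / q < n - 2`).
-/

set_option autoImplicit false

namespace Pool.Agent.Results.MP_7ecdd4_nt.AllRationalCurvesAtOnce

open Polynomial

/-- the values of the polynomials `P i` at a point of the projective line over `ℚ`; at infinity,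
which is `none`, their coefficients at `t ^ D` -/
noncomputable def value {n : ℕ} (D : ℕ) (P : Fin n → ℤ[X]) : Option ℚ → Fin n → ℚ
  | some t => fun i => aeval t (P i)
  | none => fun i => (P i).coeff D

open Classical in
/-- the number of the different points of the projective line over `ℚ` at which the curve
`t ↦ (P 0 (t) : ... : P (n-1) (t))` of degree `D` meets the coordinate hyperplanes (infinity is one
of them if some `P i` has degree less than `D`) -/
noncomputable def zeros {n : ℕ} (D : ℕ) (P : Fin n → ℤ[X]) : ℕ :=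
  (∏ i, (P i).map (Int.castRingHom ℚ)).roots.toFinset.card +
    if ∃ i, (P i).natDegree < D then 1 else 0

/-- nonzero polynomials over `ℤ` of maximal degree `D`, with coefficients of absolute value at most
`H`, all of whose zeros are rational, pairwise coprime as forms of degree `D` (so at most one of
them has degree less than `D`), with sum zero and with `q` zeros on the projective line -/
structure Curve (n D q : ℕ) (H : ℝ) (P : Fin n → ℤ[X]) : Prop where
  ne_zero : ∀ i, P i ≠ 0
  splits : ∀ i, ((P i).map (Int.castRingHom ℚ)).Splits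
  coprime : ∀ i j, i ≠ j →
    IsCoprime ((P i).map (Int.castRingHom ℚ)) ((P j).map (Int.castRingHom ℚ))
  coprime_infinity : ∀ i j, i ≠ j → (P i).natDegree = D ∨ (P j).natDegree = D
  sum_zero : ∑ i, P i = 0
  degree_le : ∀ i, (P i).natDegree ≤ D
  points : zeros D P = q
  small : ∀ i k, |((P i).coeff k : ℝ)| ≤ H

/-- the radical of the product of the coordinates -/
def rad {n : ℕ} (z : Fin n → ℤ) : ℕ := ∏ p ∈ (∏ i, z i).natAbs.primeFactors, p

/-- the `n`-tuples of nonzero integers with greatest common divisor one which are proportional to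
`(P 0 (t), ..., P (n-1) (t))` for some point `t` of the projective line over `ℚ`; their sum is
zero -/
def OnCurve {n : ℕ} (D : ℕ) (P : Fin n → ℤ[X]) : Set (Fin n → ℤ) :=
  {z | (∀ i, z i ≠ 0) ∧ (∀ d : ℤ, (∀ i, d ∣ z i) → IsUnit d) ∧
    ∃ (t : Option ℚ) (r : ℚ), ∀ i, (z i : ℚ) = r * value D P t i}

/-- those with radical at most `X`; there is no condition on their size -/
def Tuples {n : ℕ} (D : ℕ) (P : Fin n → ℤ[X]) (X : ℝ) : Set (Fin n → ℤ) :=
  {z | z ∈ OnCurve D P ∧ (rad z : ℝ) ≤ X}

/-- the union of these sets over all curves with coefficients at most `X ^ η` -/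
def AllTuples (n D q : ℕ) (η X : ℝ) : Set (Fin n → ℤ) :=
  {z | ∃ P : Fin n → ℤ[X], Curve n D q (X ^ η) P ∧ z ∈ Tuples D P X}

/-- the tuples in this union which violate `max |z i| ≤ c rad ^ M` -/
def Exceptions (n D q : ℕ) (η M c X : ℝ) : Set (Fin n → ℤ) :=
  {z | z ∈ AllTuples n D q η X ∧ ∃ i, c * (rad z : ℝ) ^ M < |(z i : ℝ)|}

open Pool.Agent.Y557.U

variable {n : ℕ}

theorem value_eq (D : ℕ) (P : Fin n → ℤ[X]) : value D P = co D (mq P) := by
  funext t
  cases t with
  | none =>
    funext i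
    exact (mq_coeff P i D).symm
  | some t =>
    funext i
    show aeval t (P i) = ((P i).map (Int.castRingHom ℚ)).eval t
    rw [eval_map]
    rfl

theorem onCurve_eq (D : ℕ) (P : Fin n → ℤ[X]) : OnCurve D P = OnC D P := by
  unfold OnCurve OnC
  rw [value_eq]
  rfl

theorem tuples_eq (D : ℕ) (P : Fin n → ℤ[X]) (X : ℝ) : Tuples D P X = Tu D P X := by
  unfold Tuples Tu
  rw [onCurve_eq]
  rfl

theorem curve_data {D q : ℕ} (hD : 1 ≤ D) (hq : 3 ≤ q) {H : ℝ} {P : Fin n → ℤ[X]}
    (h : Curve n D q H P) : (∃ i j : Fin n, i ≠ j) ∧ ∃ i, (P i).natDegree = D := by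
  have hz : ∃ i j : Fin n, i ≠ j := by
    by_contra hcon
    push Not at hcon
    have hs : Subsingleton (Fin n) := ⟨hcon⟩
    rcases Nat.eq_zero_or_pos n with h0 | h0
    · subst h0
      have h1 := h.points
      unfold zeros at h1
      simp at h1
      omega
    · have h1 := h.sum_zero
      rw [Fintype.sum_subsingleton _ ⟨0, h0⟩] at h1
      exact h.ne_zero _ h1
  refine ⟨hz, ?_⟩
  obtain ⟨i, j, hij⟩ := hz
  rcases h.coprime_infinity i j hij with h1 | h1
  · exact ⟨i, h1⟩
  · exact ⟨j, h1⟩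

theorem curve_cv {D q : ℕ} (hD : 1 ≤ D) (hq : 3 ≤ q) {H : ℝ} {P : Fin n → ℤ[X]}
    (h : Curve n D q H P) : Cv n D q H P := by
  classical
  obtain ⟨⟨i, j, hij⟩, hd⟩ := curve_data hD hq h
  refine ⟨h.ne_zero, h.splits, ?_, h.degree_le, hd, ?_, h.small⟩
  · obtain ⟨a, b, hab⟩ := h.coprime i j hij
    refine ⟨fun k => if k = i then a else if k = j then b else 0, ?_⟩
    have e1 : ∀ k, (if k = i then a else if k = j then b else 0) * mq P k =
        (if k = i then a * mq P i else 0) + if k = j then b * mq P j else 0 := by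
      intro k
      by_cases h1 : k = i
      · subst h1
        rw [if_pos rfl, if_pos rfl, if_neg hij, add_zero]
      · rw [if_neg h1, if_neg h1]
        by_cases h2 : k = j
        · subst h2
          rw [if_pos rfl, if_pos rfl, zero_add]
        · rw [if_neg h2, if_neg h2, zero_mul, zero_add]
    rw [Finset.sum_congr rfl fun k _ => e1 k, Finset.sum_add_distrib,
      Finset.sum_ite_eq' Finset.univ i, Finset.sum_ite_eq' Finset.univ j,
      if_pos (Finset.mem_univ _), if_pos (Finset.mem_univ _)]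
    exact hab
  · rw [← h.points]
    rfl

theorem allTuples_sub {D q : ℕ} (hD : 1 ≤ D) (hq : 3 ≤ q) (η X : ℝ) :
    AllTuples n D q η X ⊆ ATu n D q η X := by
  rintro z ⟨P, hP, hz⟩
  rw [tuples_eq] at hz
  exact ⟨P, curve_cv hD hq hP, hz⟩

theorem exceptions_sub {D q : ℕ} (hD : 1 ≤ D) (hq : 3 ≤ q) (η M c X : ℝ) :
    Exceptions n D q η M c X ⊆ ETu n D q η M c X := by
  rintro z ⟨⟨P, hP, hz⟩, i, hi⟩
  rw [tuples_eq] at hz
  exact ⟨P, curve_cv hD hq hP, hz, i, hi⟩

/-- **The strong n-conjecture on all split rational curves at once.** Let `D ≥ 1` and `q ≥ 3`.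
(0) If there is a curve of this kind, then `n ≥ 3` and `D < (n - 2) q`.
(1) For every `δ > 0` there is `η > 0` such that the number of the tuples with radical at most `X`,
of whatever size, on all curves with coefficients at most `X ^ η` together is at most
`C X ^ (2 / q + δ)`, and the number of those on each single one is at least `X ^ (2 / q - δ)` for
large `X`.
(2) For every `M > D / q`, for example `M = n - 2`, there are `η, ν > 0` such that for every `c > 0`
at most `C X ^ (2 / q - ν)` of all these tuples, for large `X` at most `X ^ (-ν)` times the number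
of the tuples on each single curve, violate `max |z i| ≤ c rad ^ M`.
(3) All tuples on a curve with coefficients at most `H` satisfy
`rad ^ D ≤ (C H) ^ C (max |z i|) ^ q`. -/
theorem result (n D q : ℕ) (hD : 1 ≤ D) (hq : 3 ≤ q) :
    (∀ (H : ℝ) (P : Fin n → ℤ[X]), Curve n D q H P → 3 ≤ n ∧ D < (n - 2) * q) ∧
    (∀ δ : ℝ, 0 < δ → ∃ η : ℝ, 0 < η ∧
      (∃ C : ℝ, ∀ X : ℝ, 1 ≤ X → (AllTuples n D q η X).Finite ∧
        ((AllTuples n D q η X).ncard : ℝ) ≤ C * X ^ (2 / (q : ℝ) + δ)) ∧
      ∃ X₀ : ℝ, ∀ X : ℝ, X₀ ≤ X → ∀ P : Fin n → ℤ[X], Curve n D q (X ^ η) P →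
        X ^ (2 / (q : ℝ) - δ) ≤ ((Tuples D P X).ncard : ℝ)) ∧
    (∀ M : ℝ, (D : ℝ) / q < M → ∃ η ν : ℝ, 0 < η ∧ 0 < ν ∧ ∀ c : ℝ, 0 < c →
      (∃ C : ℝ, ∀ X : ℝ, 1 ≤ X → (Exceptions n D q η M c X).Finite ∧
        ((Exceptions n D q η M c X).ncard : ℝ) ≤ C * X ^ (2 / (q : ℝ) - ν)) ∧
      ∃ X₀ : ℝ, ∀ X : ℝ, X₀ ≤ X → ∀ P : Fin n → ℤ[X], Curve n D q (X ^ η) P →
        ((Exceptions n D q η M c X).ncard : ℝ) ≤ X ^ (-ν) * ((Tuples D P X).ncard : ℝ)) ∧
    ∃ C : ℝ, 0 < C ∧ ∀ (H : ℝ) (P : Fin n → ℤ[X]), Curve n D q H P → ∀ z ∈ OnCurve D P,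
      ∀ b : ℝ, (∀ i, |(z i : ℝ)| ≤ b) → (rad z : ℝ) ^ D ≤ (C * H) ^ C * b ^ q := by
  obtain ⟨h1, h2, C3, hC3, h3⟩ := tup_main n D q hD hq
  refine ⟨fun H P hP => ?_, fun δ hδ => ?_, fun M hM => ?_, ?_⟩
  · have hcv := curve_cv hD hq hP
    obtain ⟨i, hi⟩ := hcv.deg'
    obtain ⟨h4, h5⟩ := Pool.Agent.Y31.U557.wr_holds ℚ n (mq P) D (fun i => mq_ne hP.ne_zero i) hP.splits hP.coprime
      (by
        have h6 := congrArg (Polynomial.map (Int.castRingHom ℚ)) hP.sum_zero
        rw [Polynomial.map_sum, Polynomial.map_zero] at h6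
        exact h6) ⟨i, by rw [mq_degree]; exact hi⟩ hD
    refine ⟨h4, ?_⟩
    have h7 : (Pool.Agent.Y557.NF.rts (mq P)).card ≤ q := by
      rw [← hcv.card]
      unfold zr
      refine le_trans (le_of_eq (congrArg Finset.card (Finset.ext fun r => ?_)))
        (Nat.le_add_right _ _)
      exact (@Multiset.mem_toFinset _ (_) _ _).trans (@Multiset.mem_toFinset _ (_) _ _).symm
    have h8 := Nat.mul_le_mul_left (n - 2) h7
    omega
  · obtain ⟨η, hη, ⟨C, hC⟩, X0, hX0⟩ := h1 δ hδ
    refine ⟨η, hη, ⟨C, fun X hX => ?_⟩, X0, fun X hX P hP => ?_⟩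
    · obtain ⟨h4, h5⟩ := hC X hX
      have h6 := allTuples_sub (n := n) hD hq η X
      refine ⟨h4.subset h6, le_trans ?_ h5⟩
      exact_mod_cast Set.ncard_le_ncard h6 h4
    · rw [tuples_eq]
      exact hX0 X hX P (curve_cv hD hq hP)
  · obtain ⟨η, ν, hη, hν, h4⟩ := h2 M hM
    refine ⟨η, ν, hη, hν, fun c hc => ?_⟩
    obtain ⟨⟨C, hC⟩, X0, hX0⟩ := h4 c hc
    refine ⟨⟨C, fun X hX => ?_⟩, max 1 X0, fun X hX P hP => ?_⟩
    · obtain ⟨h5, h6⟩ := hC X hX
      have h7 := exceptions_sub (n := n) hD hq η M c X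
      refine ⟨h5.subset h7, le_trans ?_ h6⟩
      exact_mod_cast Set.ncard_le_ncard h7 h5
    · have k1 : 1 ≤ X := (le_max_left _ _).trans hX
      obtain ⟨h5, -⟩ := hC X k1
      have h7 := exceptions_sub (n := n) hD hq η M c X
      rw [tuples_eq]
      refine le_trans ?_ (hX0 X ((le_max_right _ _).trans hX) P (curve_cv hD hq hP))
      exact_mod_cast Set.ncard_le_ncard h7 h5
  · refine ⟨Real.exp 1 + C3, by positivity, fun H P hP z hz b hb => ?_⟩
    rw [onCurve_eq] at hz
    have hcv := curve_cv hD hq hP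
    have hH := hcv.one_le
    have h4 := h3 H P hcv z hz
    have hm := mz_pos' hcv.pos hz.1
    have hmb := mz_le' hcv.pos hb
    have hr : 0 < (rad z : ℝ) := Pool.Agent.Y557.NF.rz_pos z
    have h5 : (rad z : ℝ) ^ D ≤ Real.exp (C3 * (Real.log H + 1)) *
        (Pool.Agent.Y557.NF.mz z) ^ q := by
      have e1 : (rad z : ℝ) ^ D = Real.exp (D * Real.log (rad z)) := by
        rw [← Real.log_pow, Real.exp_log (pow_pos hr D)]
      have e2 : (Pool.Agent.Y557.NF.mz z) ^ q =
          Real.exp (q * Real.log (Pool.Agent.Y557.NF.mz z)) := by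
        rw [← Real.log_pow, Real.exp_log (pow_pos hm q)]
      rw [e1, e2, ← Real.exp_add]
      refine Real.exp_le_exp.2 (h4.trans (le_of_eq ?_))
      ring
    have h6 : (Pool.Agent.Y557.NF.mz z) ^ q ≤ b ^ q := pow_le_pow_left₀ hm.le hmb q
    have h7 : Real.exp (C3 * (Real.log H + 1)) ≤ ((Real.exp 1 + C3) * H) ^ (Real.exp 1 + C3) := by
      have hH0 : 0 < H := by linarith
      have e3 : Real.exp (C3 * (Real.log H + 1)) = (Real.exp 1 * H) ^ C3 := by
        rw [Real.rpow_def_of_pos (by positivity), Real.log_mul (Real.exp_pos 1).ne' hH0.ne',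
          Real.log_exp]
        congr 1
        ring
      have he : (1 : ℝ) ≤ Real.exp 1 := Real.one_le_exp zero_le_one
      have h8 : Real.exp 1 * H ≤ (Real.exp 1 + C3) * H :=
        mul_le_mul_of_nonneg_right (by linarith) hH0.le
      have h9 : 1 ≤ (Real.exp 1 + C3) * H := by nlinarith
      rw [e3]
      exact (Real.rpow_le_rpow (by positivity) h8 hC3).trans
        (Real.rpow_le_rpow_of_exponent_le h9 (by linarith [Real.exp_pos 1]))
    calc (rad z : ℝ) ^ D ≤ Real.exp (C3 * (Real.log H + 1)) *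
          (Pool.Agent.Y557.NF.mz z) ^ q := h5
      _ ≤ ((Real.exp 1 + C3) * H) ^ (Real.exp 1 + C3) * b ^ q :=
          mul_le_mul h7 h6 (pow_nonneg hm.le _) (by positivity)

end Pool.Agent.Results.MP_7ecdd4_nt.AllRationalCurvesAtOnce
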