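import Pool.Agent.Results.MP_7ecdd4_nt.CountByRadicalSharp
import Pool.Agent.Y854.GM.Win

/-!
# The strong `n`-conjecture for all tuples with maximum in given windows, outside a set of dimension zero

Let `v ≥ 1` be a sequence with exponent of convergence `0`, for instance `v_k = b ^ k` or `v_k = k!`. There is a set `E` of
Hausdorff dimension zero such that for each `α > 0` outside `E`, each `θ < 1` and each `n ≥ 3` there is `M` such that EVERY
`n`-tuple `x` of non-zero pairwise coprime integers with sum zero whose maximum satisfies `|max |x_i| - α v_k| ≤ v_k ^ θ`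
for some `k` satisfies `max |x_i| ≤ rad (x_1 ⋯ x_n) ^ M`. For sequences of exponent of convergence `τ`, for instance
`v_k = k ^ (1 / τ)`, and given `θ` the dimension is at most `τ / (1 - θ)`.
-/

set_option autoImplicit false

namespace Pool.Agent.Results.MP_7ecdd4_nt.DimensionZero

open Finset Filter Topology

/-- the exponent of convergence of the sequence `v` is at most `τ` -/
def ExpLe (v : ℕ → ℝ) (τ : ℝ) : Prop := ∀ t : ℝ, τ < t → Summable (fun n : ℕ => (v n) ^ (-t))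

/-- `x` is an admissible tuple: non-zero pairwise coprime integers with sum zero. -/
def Admissible {n : ℕ} (x : Fin n → ℤ) : Prop :=
  (∀ i, x i ≠ 0) ∧ (∀ i j, i ≠ j → IsCoprime (x i) (x j)) ∧ ∑ i, x i = 0

/-- The radical of the product of all entries. -/
def radical {n : ℕ} (x : Fin n → ℤ) : ℕ := ∏ p ∈ (∏ i, x i).natAbs.primeFactors, p

/-- the maximum of the absolute values of the entries -/
def size {n : ℕ} (x : Fin n → ℤ) : ℕ := univ.sup fun i => (x i).natAbs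

/-- the tuples with `rad (x_1 ⋯ x_n) ^ M < max |x_i|` -/
def Exc (n M : ℕ) : Set (Fin n → ℤ) := {x | Admissible x ∧ radical x ^ M < size x}

lemma le_size {n : ℕ} (x : Fin n → ℤ) (i : Fin n) : |(x i : ℝ)| ≤ (size x : ℝ) := by
  have h1 : (x i).natAbs ≤ size x := le_sup (f := fun i => (x i).natAbs) (mem_univ i)
  have h2 : |(x i : ℝ)| = ((x i).natAbs : ℝ) := by
    rw [← Int.cast_abs, Int.abs_eq_natAbs]
    simp
  rw [h2]
  exact_mod_cast h1

lemma count (n M : ℕ) (hn : 3 ≤ n) (hM : 1 ≤ M) : ∃ C : ℝ, 0 ≤ C ∧ ∀ X : ℝ, 1 ≤ X →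
    {x | x ∈ Exc n M ∧ (size x : ℝ) ≤ X}.Finite ∧
      ({x | x ∈ Exc n M ∧ (size x : ℝ) ≤ X}.ncard : ℝ) ≤ C * X ^ (1 / (M : ℝ)) := by
  have hn0 : (0 : ℝ) < n := by exact_mod_cast (by omega : 0 < n)
  have hM0 : (0 : ℝ) < M := by exact_mod_cast hM
  obtain ⟨η, hη, C, hC, h⟩ := (CountByRadicalSharp.result n hn).1 (1 / n) (by positivity)
  refine ⟨C * Real.exp M, by positivity, fun X hX => ?_⟩
  have hX0 : 0 < X := by linarith
  set X' : ℝ := X * Real.exp ((M : ℝ) ^ 2) with hX'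
  have hX'0 : 0 < X' := by positivity
  have he1 : 1 ≤ Real.exp ((M : ℝ) ^ 2) := Real.one_le_exp (by positivity)
  have hXX' : X ≤ X' := by
    calc X = X * 1 := (mul_one X).symm
      _ ≤ X' := mul_le_mul_of_nonneg_left he1 hX0.le
  set Y : ℝ := X' ^ (1 / (M : ℝ)) with hY
  have hY1 : 1 ≤ Y := Real.one_le_rpow (hX.trans hXX') (by positivity)
  have hY0 : 0 < Y := by linarith
  obtain ⟨hfin, hcard⟩ := h Y hY1
  have hlogX' : (M : ℝ) ^ 2 ≤ Real.log X' := by
    rw [hX', Real.log_mul hX0.ne' (Real.exp_pos _).ne', Real.log_exp]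
    have := Real.log_nonneg hX
    linarith
  have hlogY : Real.log Y = Real.log X' / M := by
    rw [hY, Real.log_rpow hX'0]
    ring
  have hbig : X' ≤ Real.exp ((1 + Real.log Y) ^ (2 + η)) := by
    rw [← Real.log_le_iff_le_exp hX'0, hlogY]
    have hL0 : 0 ≤ Real.log X' := le_trans (by positivity) hlogX'
    have h1 : (1 : ℝ) ≤ 1 + Real.log X' / M := by
      have : 0 ≤ Real.log X' / M := by positivity
      linarith
    calc Real.log X' ≤ (Real.log X' / M) ^ 2 := by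
          rw [div_pow, le_div_iff₀ (by positivity), sq (Real.log X')]
          exact mul_le_mul_of_nonneg_left hlogX' hL0
      _ ≤ (1 + Real.log X' / M) ^ 2 := by
          apply pow_le_pow_left₀ (by positivity)
          linarith
      _ = (1 + Real.log X' / M) ^ (2 : ℝ) := by
          rw [← Real.rpow_natCast]
          norm_num
      _ ≤ (1 + Real.log X' / M) ^ (2 + η) := Real.rpow_le_rpow_of_exponent_le h1 (by linarith)
  have hsub : {x | x ∈ Exc n M ∧ (size x : ℝ) ≤ X} ⊆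
      CountByRadicalSharp.Tuples n Y (Real.exp ((1 + Real.log Y) ^ (2 + η))) := by
    rintro x ⟨⟨hx, hr⟩, hs⟩
    refine ⟨hx, ?_, fun i => (le_size x i).trans ((hs.trans hXX').trans hbig)⟩
    have h1 : ((radical x : ℝ)) ^ M ≤ X' := by
      have h2 : ((radical x : ℝ)) ^ M ≤ (size x : ℝ) := by exact_mod_cast hr.le
      exact (h2.trans hs).trans hXX'
    show (radical x : ℝ) ≤ Y
    calc (radical x : ℝ) = ((radical x : ℝ) ^ M) ^ (1 / (M : ℝ)) := by
          rw [← Real.rpow_natCast, ← Real.rpow_mul (Nat.cast_nonneg _), mul_one_div_cancel hM0.ne', Real.rpow_one]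
      _ ≤ Y := Real.rpow_le_rpow (by positivity) h1 (by positivity)
  refine ⟨hfin.subset hsub, ?_⟩
  have hexp : ((n : ℝ) - 1) / n + 1 / n = 1 := by
    field_simp
    ring
  rw [hexp, Real.rpow_one] at hcard
  calc ({x | x ∈ Exc n M ∧ (size x : ℝ) ≤ X}.ncard : ℝ)
      ≤ ((CountByRadicalSharp.Tuples n Y (Real.exp ((1 + Real.log Y) ^ (2 + η)))).ncard : ℝ) := by
        exact_mod_cast Set.ncard_le_ncard hsub hfin
    _ ≤ C * Y := hcard
    _ = C * Real.exp M * X ^ (1 / (M : ℝ)) := by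
        rw [hY, hX', Real.mul_rpow hX0.le (Real.exp_pos _).le, ← Real.exp_mul]
        have : (M : ℝ) ^ 2 * (1 / M) = M := by
          field_simp
        rw [this]
        ring

lemma one_le_radical {n : ℕ} (x : Fin n → ℤ) : 1 ≤ radical x :=
  Finset.prod_pos fun p hp => (Nat.prime_of_mem_primeFactors hp).pos

lemma size_le_one {n : ℕ} (x : Fin n → ℤ) (hx : Admissible x) (h : radical x = 1) : size x ≤ 1 := by
  apply Finset.sup_le
  intro i _
  by_contra hcon
  push Not at hcon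
  obtain ⟨p, hp, hpx⟩ := Nat.exists_prime_and_dvd (n := (x i).natAbs) (by omega)
  have h0 : (∏ i, x i).natAbs ≠ 0 := Int.natAbs_ne_zero.2 (prod_ne_zero_iff.2 fun i _ => hx.1 i)
  have h1 : p ∣ (∏ i, x i).natAbs := by
    refine hpx.trans ?_
    exact Int.natAbs_dvd_natAbs.2 (Finset.dvd_prod_of_mem x (mem_univ i))
  have h2 : p ∈ (∏ i, x i).natAbs.primeFactors := Nat.mem_primeFactors.2 ⟨hp, h1, h0⟩
  have h3 : p ∣ radical x := Finset.dvd_prod_of_mem (fun p : ℕ => p) h2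
  rw [h] at h3
  exact hp.one_lt.ne' (Nat.dvd_one.1 h3)

lemma main (v : ℕ → ℝ) (τ θ : ℝ) (hv : ∀ k, 1 ≤ v k) (hτ : 0 ≤ τ) (hE : ExpLe v τ) (hθ : θ < 1) :
    ∃ E : Set ℝ, dimH E ≤ ENNReal.ofReal (τ / (1 - θ)) ∧
      ∀ α : ℝ, 0 < α → α ∉ E → ∀ n : ℕ, 3 ≤ n → ∃ M : ℕ, ∀ (k : ℕ) (x : Fin n → ℤ), Admissible x →
        |(size x : ℝ) - α * v k| ≤ (v k) ^ θ → size x ≤ radical x ^ M := by
  have h1θ : 0 < 1 - θ := by linarith
  have hall : ∀ n M : ℕ, ∃ E : Set ℝ, dimH E ≤ ENNReal.ofReal ((1 / ((M : ℝ) + 1) + τ) / (1 - θ)) ∧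
      ∀ α : ℝ, 0 < α → α ∉ E → ∃ n0 : ℕ, ∀ k : ℕ, n0 ≤ k → ∀ x ∈ Exc (n + 3) (M + 1),
        (v k) ^ θ < |(size x : ℝ) - α * v k| := by
    intro n M
    obtain ⟨C, hC, hc⟩ := count (n + 3) (M + 1) (by omega) (by omega)
    refine Pool.Agent.Y854.GM.windows (Exc (n + 3) (M + 1)) (fun x => (size x : ℝ)) hv hτ hE
      (s := 1 / ((M : ℝ) + 1)) (by positivity) hθ (fun ε hε => ⟨C, fun X hX => ⟨(hc X hX).1, (hc X hX).2.trans ?_⟩⟩)
    apply mul_le_mul_of_nonneg_left _ hC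
    apply Real.rpow_le_rpow_of_exponent_le hX
    push_cast
    linarith
  choose G hG1 hG2 using hall
  refine ⟨⋃ n, ⋂ M, G n M, ?_, fun α hα hαE n hn => ?_⟩
  · rw [dimH_iUnion]
    refine iSup_le fun n => ?_
    have hlim : Tendsto (fun M : ℕ => ENNReal.ofReal ((1 / ((M : ℝ) + 1) + τ) / (1 - θ))) atTop
        (𝓝 (ENNReal.ofReal ((0 + τ) / (1 - θ)))) :=
      ENNReal.tendsto_ofReal ((tendsto_one_div_add_atTop_nhds_zero_nat.add_const τ).div_const (1 - θ))
    rw [zero_add] at hlim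
    exact ge_of_tendsto' hlim fun M => (dimH_mono (Set.iInter_subset _ M)).trans (hG1 n M)
  · obtain ⟨m, rfl⟩ : ∃ m, n = m + 3 := ⟨n - 3, by omega⟩
    have h1 : α ∉ ⋂ M, G m M := fun h => hαE (Set.mem_iUnion.2 ⟨m, h⟩)
    rw [Set.mem_iInter] at h1
    push Not at h1
    obtain ⟨M, hM⟩ := h1
    obtain ⟨k₀, hk⟩ := hG2 m M α hα hM
    obtain ⟨H, hH⟩ : ∃ H : ℕ, ∀ k : ℕ, k < k₀ → α * v k + (v k) ^ θ ≤ H := by
      obtain ⟨H, hH⟩ := exists_nat_ge (∑ k ∈ range k₀, (α * v k + (v k) ^ θ))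
      refine ⟨H, fun k hk => le_trans ?_ hH⟩
      refine Finset.single_le_sum (f := fun k => α * v k + (v k) ^ θ) (fun i _ => ?_) (mem_range.2 hk)
      have := hv i
      positivity
    refine ⟨max (M + 1) H, fun k x hx hw => ?_⟩
    have hr := one_le_radical x
    rcases Nat.lt_or_ge k k₀ with hlt | hge
    · rcases Nat.eq_or_lt_of_le hr with h1 | h2
      · rw [← h1, one_pow]
        exact size_le_one x hx h1.symm
      · have h3 : (size x : ℝ) ≤ H := by
          have := (abs_le.1 hw).2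
          have := hH k hlt
          linarith
        have h4 : size x ≤ H := by exact_mod_cast h3
        calc size x ≤ H := h4
          _ ≤ 2 ^ H := Nat.lt_two_pow_self.le
          _ ≤ radical x ^ H := Nat.pow_le_pow_left h2 H
          _ ≤ radical x ^ max (M + 1) H := Nat.pow_le_pow_right hr (le_max_right _ _)
    · have h3 : size x ≤ radical x ^ (M + 1) := by
        by_contra hcon
        push Not at hcon
        exact absurd (hk k hge x ⟨hx, hcon⟩) (not_lt.2 hw)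
      exact h3.trans (Nat.pow_le_pow_right hr (le_max_left _ _))

/-- **Theorem.** (1) Let `v ≥ 1` be a sequence of exponent of convergence at most `τ ≥ 0` and `θ < 1`. There is a set `E`
of Hausdorff dimension at most `τ / (1 - θ)` such that for each `α > 0` outside `E` and each `n ≥ 3` there is `M` such that
EVERY admissible `n`-tuple with `|max |x_i| - α v_k| ≤ v_k ^ θ` for some `k` satisfies
`max |x_i| ≤ rad (x_1 ⋯ x_n) ^ M`. (2) If `v` has exponent of convergence `0` there is one set `E` of Hausdorff dimension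
zero which has this property for ALL `θ < 1`. (3) The sequences `v_k = (k + 1) ^ a` and `v_k = b ^ k` have exponent of
convergence at most `1 / a` and `0`. -/
theorem result :
    (∀ (v : ℕ → ℝ) (τ θ : ℝ), (∀ k, 1 ≤ v k) → 0 ≤ τ → ExpLe v τ → θ < 1 →
      ∃ E : Set ℝ, dimH E ≤ ENNReal.ofReal (τ / (1 - θ)) ∧
        ∀ α : ℝ, 0 < α → α ∉ E → ∀ n : ℕ, 3 ≤ n → ∃ M : ℕ, ∀ (k : ℕ) (x : Fin n → ℤ), Admissible x →
          |(size x : ℝ) - α * v k| ≤ (v k) ^ θ → size x ≤ radical x ^ M) ∧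
    (∀ v : ℕ → ℝ, (∀ k, 1 ≤ v k) → ExpLe v 0 →
      ∃ E : Set ℝ, dimH E = 0 ∧
        ∀ α : ℝ, 0 < α → α ∉ E → ∀ θ : ℝ, θ < 1 → ∀ n : ℕ, 3 ≤ n → ∃ M : ℕ, ∀ (k : ℕ) (x : Fin n → ℤ),
          Admissible x → |(size x : ℝ) - α * v k| ≤ (v k) ^ θ → size x ≤ radical x ^ M) ∧
    (∀ a : ℝ, 0 < a → ExpLe (fun n : ℕ => ((n : ℝ) + 1) ^ a) (1 / a)) ∧
    (∀ b : ℝ, 1 < b → ExpLe (fun n : ℕ => b ^ n) 0) := by
  refine ⟨main, fun v hv hE => ?_, fun κ hκ => Pool.Agent.Y854.GM.expLe_pow κ hκ,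
    fun b hb => Pool.Agent.Y854.GM.expLe_geom b hb⟩
  have hall : ∀ m : ℕ, ∃ E : Set ℝ, dimH E ≤ 0 ∧
      ∀ α : ℝ, 0 < α → α ∉ E → ∀ n : ℕ, 3 ≤ n → ∃ M : ℕ, ∀ (k : ℕ) (x : Fin n → ℤ), Admissible x →
        |(size x : ℝ) - α * v k| ≤ (v k) ^ (1 - 1 / ((m : ℝ) + 1)) → size x ≤ radical x ^ M := by
    intro m
    have hm : (0 : ℝ) < 1 / ((m : ℝ) + 1) := by positivity
    obtain ⟨E, h1, h2⟩ := main v 0 (1 - 1 / ((m : ℝ) + 1)) hv le_rfl hE (by linarith)
    rw [zero_div, ENNReal.ofReal_zero] at h1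
    exact ⟨E, h1, h2⟩
  choose G hG1 hG2 using hall
  refine ⟨⋃ m, G m, ?_, fun α hα hαE θ hθ n hn => ?_⟩
  · rw [dimH_iUnion]
    exact le_antisymm (iSup_le hG1) bot_le
  · obtain ⟨m, hm⟩ := exists_nat_one_div_lt (show 0 < 1 - θ by linarith)
    obtain ⟨M, hM⟩ := hG2 m α hα (fun h => hαE (Set.mem_iUnion.2 ⟨m, h⟩)) n hn
    refine ⟨M, fun k x hx hw => hM k x hx (hw.trans ?_)⟩
    exact Real.rpow_le_rpow_of_exponent_le (hv k) (by linarith)

end Pool.Agent.Results.MP_7ecdd4_nt.DimensionZero
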