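import Pool.Agent.Y912.SN4.Tuple

/-!
# The strong n-conjecture for `n = 4`: the exponent is larger than `9/7`

There are infinitely many quadruples of pairwise coprime non-zero integers with sum zero and without
vanishing proper sub-sums such that `max |x_j| ≥ c (R log R) ^ (9/7)`, `R = rad (x_1 x_2 x_3 x_4)`.
They come from the identity

`(5 X + 18) ^ 5 X ^ 4 + 3 (17 X ^ 2 + 68 X + 4) ^ 3 + (21 X ^ 2 + 84 X + 20) ^ 3
  = (5 X + 2) ^ 5 (X + 4) ^ 4`

with `X` a power of `7` such that `X + 4` is divisible by a high power of `11`. All resultants of the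
factors are, up to the primes `3` and `5`, powers of two.
-/

set_option autoImplicit false

namespace Pool.Agent.Results.MP_7ecdd4_nt.Quadruples

/-- `x` is an admissible tuple: non-zero pairwise coprime integers with sum zero. -/
def Admissible {n : ℕ} (x : Fin n → ℤ) : Prop :=
  (∀ i, x i ≠ 0) ∧ (∀ i j, i ≠ j → Int.gcd (x i) (x j) = 1) ∧ ∑ i, x i = 0

/-- No sub-sum over a non-empty proper set of indices vanishes. -/
def NoVanishingSubsum {n : ℕ} (x : Fin n → ℤ) : Prop :=
  ∀ S : Finset (Fin n), S.Nonempty → S ≠ Finset.univ → ∑ i ∈ S, x i ≠ 0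

/-- The radical of `x_1 ⋯ x_n`: the product of the primes dividing it. -/
def rad {n : ℕ} (x : Fin n → ℤ) : ℕ := ∏ p ∈ (∏ i, x i).natAbs.primeFactors, p

/-- **The strong `n`-conjecture for `n = 4` needs an exponent larger than `9/7`**, even if finitely
many quadruples, all quadruples with a vanishing sub-sum, and a constant factor are ignored. -/
theorem result :
    (∃ c : ℝ, 0 < c ∧ {x : Fin 4 → ℤ | (Admissible x ∧ NoVanishingSubsum x) ∧
      ∃ j, c * ((rad x : ℝ) * Real.log (rad x)) ^ (9 / 7 : ℝ) ≤ |((x j : ℤ) : ℝ)|}.Infinite) ∧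
    (∀ M K : ℝ,
      {x : Fin 4 → ℤ | (Admissible x ∧ NoVanishingSubsum x) ∧
        ¬ ∀ j, |((x j : ℤ) : ℝ)| ≤ K * (rad x : ℝ) ^ M}.Finite → 9 / 7 < M) := by
  obtain ⟨c, hc, hinf⟩ := Pool.Agent.Y912.SN4.main
  exact ⟨⟨c, hc, hinf⟩, fun M K hfin =>
    Pool.Agent.Y912.SN4.strict_gen (fun x => Admissible x ∧ NoVanishingSubsum x) (by norm_num) hc
      hinf M K hfin⟩

end Pool.Agent.Results.MP_7ecdd4_nt.Quadruples
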