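import Mathlib
import Pool.Agent.Y353.SM.Box

/-!
# n-term equations between powers: almost all tuples of bases, power saving

There is an absolute constant `δ > 0` such that for all `k`, `m`, `K` and all `N ≥ N₀(k, m, K)` every box with
sides `M₁, …, M_k ≥ N` (and anywhere) contains at most `N ^ (-δ) M₁ ⋯ M_k` tuples `A` of positive integers with a
relation

  `a₁ u₁ + ⋯ + a_m u_m = c w ^ n`,

where `u₁, …, u_m` are products of powers of the `A i` with arbitrary exponents, the coefficients `a_j` are nonzero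
and composed of primes at most `(log N) ^ (1/25)`, `c` is nonzero and composed of primes at most
`(log N) ^ (9/10)`, `n` is divisible by a prime `q ≤ (log N) ^ K`, and one of the `A i` occurs in only one of the
`u_j`, with an exponent which is at most `exp (√(log N) / 3)` and not divisible by `q`. The coefficients are not
bounded and all the other exponents are free; no coprimality and no condition on sub-sums is needed.

For example, for almost all `A` there is no equation `a₁ A₁ ^ p₁ + ⋯ + a_k A_k ^ p_k = c w ^ n` with such `a_j`,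
`c`, `n` for which one of the `p_j` is at most `exp (√(log N) / 3)` and not divisible by `q`. These are
`(m + 1)`-tuples with sum zero as in the `n`-conjectures, all of whose members are essentially (products of) powers.
-/

set_option autoImplicit false

namespace Pool.Agent.Results.MP_7ecdd4_nt.SumsOfMonomials

/-- `a` is a nonzero integer, all of whose prime factors are at most `Y` -/
def Smooth (Y : ℝ) (a : ℤ) : Prop := a ≠ 0 ∧ ∀ p : ℕ, p.Prime → (p : ℤ) ∣ a → (p : ℝ) ≤ Y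

/-- The `k`-tuple `A` has a relation `∑ a_j ∏ A_i ^ x_ji = c w ^ n` with `m` terms on the left, smooth coefficients
and an exponent `n` with a small prime factor `q`, where one variable `A i₀` occurs in only one term `j₀`, with an
exponent which is not too large and not divisible by `q`. -/
def Rel (k m N K : ℕ) (A : Fin k → ℕ) : Prop :=
  ∃ (x : Fin m → Fin k → ℕ) (a : Fin m → ℤ) (n : ℕ) (c w : ℤ),
    (∀ j, Smooth (Real.log N ^ (1 / 25 : ℝ)) (a j)) ∧ Smooth (Real.log N ^ (9 / 10 : ℝ)) c ∧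
    (∃ q : ℕ, q.Prime ∧ q ∣ n ∧ (q : ℝ) ≤ Real.log N ^ K ∧
      ∃ (j₀ : Fin m) (i₀ : Fin k), 0 < x j₀ i₀ ∧ (x j₀ i₀ : ℝ) ≤ Real.exp (√(Real.log N) / 3) ∧
        ¬ q ∣ x j₀ i₀ ∧ ∀ j, j ≠ j₀ → x j i₀ = 0) ∧
    ∑ j, a j * ∏ i, (A i : ℤ) ^ x j i = c * w ^ n

theorem result : ∃ δ : ℝ, 0 < δ ∧ ∀ k m K : ℕ, ∃ N₀ : ℕ, ∀ N : ℕ, N₀ ≤ N → ∀ a M : Fin k → ℕ,
    (∀ i, N ≤ M i) →
    (({A : Fin k → ℕ | (∀ i, a i < A i ∧ A i ≤ a i + M i) ∧ Rel k m N K A}.ncard : ℕ) : ℝ) ≤
      (N : ℝ) ^ (-δ) * ∏ i, (M i : ℝ) := by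
  obtain ⟨δ, hδ, -, h⟩ := Pool.Agent.Y353.SM.power_saving_mono
  refine ⟨δ, hδ, fun k m K => ?_⟩
  obtain ⟨N₀, g⟩ := h k m K
  refine ⟨N₀, fun N hN a M hM => ?_⟩
  classical
  have hfin : {A : Fin k → ℕ | (∀ i, a i < A i ∧ A i ≤ a i + M i) ∧ Rel k m N K A}.Finite := by
    apply Set.Finite.subset (Set.Finite.pi' fun i => Set.finite_Ioc (a i) (a i + M i))
    rintro A ⟨hA, -⟩ i
    exact ⟨(hA i).1, (hA i).2⟩
  rw [Set.ncard_eq_toFinset_card _ hfin]
  apply g N hN a M hM
  intro A hA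
  rw [Set.Finite.mem_toFinset] at hA
  obtain ⟨h1, x, a', n, c', w, h2, h3, ⟨q, hq, hqn, hqK, j₀, i₀, h4, h5, h6, h7⟩, h8⟩ := hA
  obtain ⟨r, rfl⟩ := hqn
  refine ⟨h1, q, hq, hqK, fun i => lt_of_le_of_lt (Nat.zero_le _) (h1 i).1, x, a', c', w ^ r,
    h2, h3, ⟨j₀, i₀, h4, Nat.le_floor h5, h6, h7⟩, ?_⟩
  rw [h8, ← pow_mul, mul_comm r q]

end Pool.Agent.Results.MP_7ecdd4_nt.SumsOfMonomials
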